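import Pool.Agent.Help40.EA.Rule

/-!
# No local rule determines the ground states: boxes, and coding radii
-/

set_option autoImplicit false

open Finset MeasureTheory ProbabilityTheory Filter Topology

namespace Pool.Agent.Help40.EA

open Pool.Agent.R239.EA

variable {d : ℕ}

lemma near4 {c s : Fin d → ℤ} {k : Fin d} {n r m l : ℕ} (hl : l < m)
    (hm : 2 * r + 3 ≤ m * (2 * n + 1)) (hk : -((r : ℤ) + 1) ≤ s k - c k ∧ s k - c k ≤ 0)
    (hs : ∀ a, |s a - c a| ≤ r + 2) (a : Fin d) : |ce n s k l a - c a| ≤ m * (2 * n + 1) := by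
  have hm' : 2 * (r : ℤ) + 3 ≤ m * (2 * n + 1) := by exact_mod_cast hm
  have hl' : ((l : ℤ) + 1) * (2 * n + 1) ≤ m * (2 * n + 1) := by
    have h1 : ((l : ℤ) + 1) ≤ m := by exact_mod_cast hl
    exact mul_le_mul_of_nonneg_right h1 (by positivity)
  have hl0 : (0 : ℤ) ≤ (l : ℤ) * (2 * n + 1) := by positivity
  have hn0 : (0 : ℤ) ≤ n := Nat.cast_nonneg n
  have hr0 : (0 : ℤ) ≤ r := Nat.cast_nonneg r
  unfold ce
  rw [Pi.add_apply, Pi.smul_apply, smul_eq_mul]
  by_cases hak : a = k
  · subst hak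
    rw [u_same, mul_one, abs_le]
    constructor <;> linarith [hk.1, hk.2]
  · rw [u_ne hak, mul_zero, add_zero]
    exact (hs a).trans (by linarith)

variable (μ : Measure ℝ) [IsProbabilityMeasure μ]

/-- **boxes** -/
theorem rule_box (hd : 2 ≤ d) (hat : ∀ x, μ {x} = 0) (hsym : μ.map (fun x => -x) = μ)
    {η : (Fin d → ℤ) → ℝ} (hη : ∀ x, η x = 1 ∨ η x = -1) {M : ℕ} {c : Fin d → ℤ}
    {n r m : ℕ} (hnr : n ≤ r) (hm : 2 * r + 3 ≤ m * (2 * n + 1))
    (hM : nrm c + m * (2 * n + 1) + r + 1 ≤ M)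
    {F : (Fin d → ℤ) → ((Fin d → ℤ) × Fin d → ℝ) → (Fin d → ℤ) × Fin d → ℝ} (hF : Loc F r) :
    ∃ w : Fin d → ℤ, (∀ a, |w a - c a| ≤ m * (2 * n + 1)) ∧
      ((8 * m : ℕ) : ENNReal)⁻¹ ≤ Lw μ d {J | Er M η F n w J} := by
  classical
  set i : Fin d := ⟨0, by omega⟩ with hi
  set j : Fin d := ⟨1, by omega⟩ with hj
  have hij : i ≠ j := by
    intro h
    have := congrArg Fin.val h
    simp [hi, hj] at this
  have hm0 : 0 < m := by
    rcases Nat.eq_zero_or_pos m with h | h
    · subst h; omega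
    · exact h
  by_contra hcon
  push Not at hcon
  obtain ⟨S, hS⟩ : ∃ S : Finset (Fin d → ℤ), S = (Finset.range m).biUnion fun l =>
    {ce n (pa c i j r) i l, ce n (pa c i j r) j l, ce n (pd c i j r) i l,
      ce n (pb c i j r) j l} := ⟨_, rfl⟩
  obtain ⟨q, hq⟩ : ∃ q : ENNReal, q = S.sup fun w => Lw μ d {J | Er M η F n w J} := ⟨_, rfl⟩
  have hr0 : (0 : ℤ) ≤ r := Nat.cast_nonneg r
  have hpa : ∀ a, |pa c i j r a - c a| ≤ r + 2 := by
    intro a
    by_cases hai : a = i
    · rw [hai, pa_i c r hij, abs_le]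
      constructor <;> linarith
    by_cases haj : a = j
    · rw [haj, pa_j c r hij, abs_le]
      constructor <;> linarith
    unfold pa
    simp only [Pi.sub_apply, Pi.smul_apply, u_ne hai, u_ne haj, smul_zero, sub_zero, sub_self,
      abs_zero]
    linarith
  have hpd : ∀ a, |pd c i j r a - c a| ≤ r + 2 := by
    intro a
    by_cases hai : a = i
    · have : pd c i j r i = c i - r - 1 := by
        simp only [pd, Pi.sub_apply, Pi.add_apply, Pi.smul_apply, u_same, u_ne hij, smul_eq_mul]
        ring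
      rw [hai, this, abs_le]
      constructor <;> linarith
    by_cases haj : a = j
    · rw [haj, pd_j c r hij, abs_le]
      constructor <;> linarith
    unfold pd
    simp only [Pi.sub_apply, Pi.add_apply, Pi.smul_apply, u_ne hai, u_ne haj, smul_zero, sub_zero,
      add_zero, sub_self, abs_zero]
    linarith
  have hpb : ∀ a, |pb c i j r a - c a| ≤ r + 2 := by
    intro a
    by_cases hai : a = i
    · rw [hai, pb_i c r hij, abs_le]
      constructor <;> linarith
    by_cases haj : a = j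
    · have : pb c i j r j = c j - r := by
        simp only [pb, Pi.sub_apply, Pi.add_apply, Pi.smul_apply, u_same, u_ne hij.symm,
          smul_eq_mul]
        ring
      rw [haj, this, abs_le]
      constructor <;> linarith
    unfold pb
    simp only [Pi.sub_apply, Pi.add_apply, Pi.smul_apply, u_ne hai, u_ne haj, smul_zero, sub_zero,
      add_zero, sub_self, abs_zero]
    linarith
  have hloc : ∀ w ∈ S, ∀ a, |w a - c a| ≤ m * (2 * n + 1) := by
    intro w hw
    rw [hS, Finset.mem_biUnion] at hw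
    obtain ⟨l, hl, hw⟩ := hw
    rw [Finset.mem_range] at hl
    simp only [Finset.mem_insert, Finset.mem_singleton] at hw
    rcases hw with rfl | rfl | rfl | rfl
    · refine near4 hl hm ?_ hpa
      rw [pa_i c r hij]
      constructor <;> linarith
    · refine near4 hl hm ?_ hpa
      rw [pa_j c r hij]
      constructor <;> linarith
    · refine near4 hl hm ?_ hpd
      have : pd c i j r i = c i - r - 1 := by
        simp only [pd, Pi.sub_apply, Pi.add_apply, Pi.smul_apply, u_same, u_ne hij, smul_eq_mul]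
        ring
      rw [this]
      constructor <;> linarith
    · refine near4 hl hm ?_ hpb
      have : pb c i j r j = c j - r := by
        simp only [pb, Pi.sub_apply, Pi.add_apply, Pi.smul_apply, u_same, u_ne hij.symm,
          smul_eq_mul]
        ring
      rw [this]
      constructor <;> linarith
  have h1 := local_rule (d := d) μ hd hat hsym hη hij hnr hm hM hF q (by
    intro l hl w hw
    have hwS : w ∈ S := by
      rw [hS, Finset.mem_biUnion]
      refine ⟨l, Finset.mem_range.2 hl, ?_⟩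
      simp only [Finset.mem_insert, Finset.mem_singleton]
      simpa only [Set.mem_insert_iff, Set.mem_singleton_iff] using hw
    rw [hq]
    exact Finset.le_sup (f := fun w => Lw μ d {J | Er M η F n w J}) hwS)
  have h8 : ((8 * m : ℕ) : ENNReal) ≠ 0 := by
    rw [Ne, Nat.cast_eq_zero]
    omega
  have h8' : ((8 * m : ℕ) : ENNReal) ≠ ⊤ := ENNReal.natCast_ne_top _
  have hlt : q < ((8 * m : ℕ) : ENNReal)⁻¹ := by
    rw [hq, Finset.sup_lt_iff]
    · intro w hw
      exact hcon w (hloc w hw)
    · rw [bot_eq_zero]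
      exact ENNReal.inv_pos.2 h8'
  have h2 : ((8 * m : ℕ) : ENNReal) * q < 1 := by
    calc ((8 * m : ℕ) : ENNReal) * q < ((8 * m : ℕ) : ENNReal) * ((8 * m : ℕ) : ENNReal)⁻¹ :=
          ENNReal.mul_lt_mul_right h8 h8' hlt
      _ = 1 := ENNReal.mul_inv_cancel h8 h8'
  exact absurd h1 (not_le.2 h2)

/-- the tail of a coding radius -/
theorem tail_inf {Ω : Type} [MeasurableSpace Ω] (P : Measure Ω) {R : Ω → ℕ} (hR : Measurable R)
    (h : ∀ r : ℕ, ((16 * r + 24 : ℕ) : ENNReal)⁻¹ ≤ P {x | r < R x}) :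
    ∫⁻ x, (R x : ENNReal) ∂P = ⊤ := by
  have h1 : ∀ x, (R x : ENNReal) = ∑' r : ℕ, Set.indicator {x | r < R x} (fun _ => (1 : ENNReal)) x := by
    intro x
    have h2 : ∀ r ∉ Finset.range (R x), Set.indicator {x | r < R x} (fun _ => (1 : ENNReal)) x = 0 := by
      intro r hr
      rw [Finset.mem_range] at hr
      have hr' : x ∉ {x | r < R x} := hr
      exact Set.indicator_of_notMem hr' _
    rw [tsum_eq_sum h2]
    have h3 : ∀ r ∈ Finset.range (R x), Set.indicator {x | r < R x} (fun _ => (1 : ENNReal)) x = 1 := by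
      intro r hr
      rw [Finset.mem_range] at hr
      have hr' : x ∈ {x | r < R x} := hr
      exact Set.indicator_of_mem hr' _
    rw [Finset.sum_congr rfl h3, Finset.sum_const, Finset.card_range, nsmul_eq_mul, mul_one]
  have hms : ∀ r : ℕ, MeasurableSet {x | r < R x} := fun r => hR measurableSet_Ioi
  have h4 : ∫⁻ x, (R x : ENNReal) ∂P = ∑' r : ℕ, P {x | r < R x} := by
    simp_rw [h1]
    rw [lintegral_tsum fun r => (measurable_const.indicator (hms r)).aemeasurable]
    refine tsum_congr fun r => ?_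
    rw [lintegral_indicator (hms r), lintegral_const, Measure.restrict_apply MeasurableSet.univ,
      Set.univ_inter, one_mul]
  rw [h4]
  refine top_unique ?_
  have h5 : ∑' r : ℕ, ((16 * r + 24 : ℕ) : ENNReal)⁻¹ = ⊤ := by
    have h6 : ∀ r : ℕ, ((24 : ℕ) : ENNReal)⁻¹ * ((r + 1 : ℕ) : ENNReal)⁻¹ ≤
        ((16 * r + 24 : ℕ) : ENNReal)⁻¹ := by
      intro r
      rw [← ENNReal.mul_inv (Or.inl (by norm_num)) (Or.inl (by norm_num)), ENNReal.inv_le_inv]
      exact_mod_cast (show 16 * r + 24 ≤ 24 * (r + 1) by omega)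
    refine top_unique ?_
    calc (⊤ : ENNReal) = ((24 : ℕ) : ENNReal)⁻¹ * ∑' r : ℕ, ((r + 1 : ℕ) : ENNReal)⁻¹ := by
          have h7 : ∑' r : ℕ, ((r + 1 : ℕ) : ENNReal)⁻¹ = ⊤ := by
            have h8 := Real.not_summable_one_div_natCast
            by_contra h9
            apply h8
            rw [← summable_nat_add_iff 1]
            have h10 : ∀ r : ℕ, ((r + 1 : ℕ) : ENNReal)⁻¹ = ENNReal.ofReal (1 / ((r + 1 : ℕ) : ℝ)) := by
              intro r
              rw [one_div, ENNReal.ofReal_inv_of_pos (by positivity), ENNReal.ofReal_natCast]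
            simp_rw [h10] at h9
            exact ENNReal.summable_toReal h9 |>.congr fun r => by
              rw [ENNReal.toReal_ofReal (by positivity)]
          rw [h7, ENNReal.mul_top]
          rw [Ne, ENNReal.inv_eq_zero]
          exact ENNReal.natCast_ne_top _
      _ = ∑' r : ℕ, ((24 : ℕ) : ENNReal)⁻¹ * ((r + 1 : ℕ) : ENNReal)⁻¹ := by
          rw [ENNReal.tsum_mul_left]
      _ ≤ _ := ENNReal.tsum_le_tsum h6
  rw [← h5]
  exact ENNReal.tsum_le_tsum h

end Pool.Agent.Help40.EA
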