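import Pool.Agent.R239.EA.I

/-!
# No local rule determines the ground states: infinite volume
-/

set_option autoImplicit false

open Finset MeasureTheory ProbabilityTheory Filter Topology

namespace Pool.Agent.Help40.EA

open Pool.Agent.R239.EA

variable {d : ℕ}

lemma GA_gauge {J : (Fin d → ℤ) × Fin d → ℝ} {σ : (Fin d → ℤ) → ℝ} (h : GA J σ)
    (G : Set (Fin d → ℤ)) : GA (flS (dC G) J) (flip G σ) := fun n => (h n).gauge G

lemma GA_shift {J : (Fin d → ℤ) × Fin d → ℝ} {σ : (Fin d → ℤ) → ℝ} (h : GA J σ)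
    (w : Fin d → ℤ) : GA (shw w J) (fun x => σ (x + w)) := fun n => GI_shift (h.at w n)

/-- the rule `F` fails in the box of radius `n` around `w`, for some infinite-volume ground state -/
def ErA (F : (Fin d → ℤ) → ((Fin d → ℤ) × Fin d → ℝ) → (Fin d → ℤ) × Fin d → ℝ) (n : ℕ)
    (w : Fin d → ℤ) (J : (Fin d → ℤ) × Fin d → ℝ) : Prop :=
  ∃ σ, GA J σ ∧ ∃ e : (Fin d → ℤ) × Fin d, nrm (e.1 - w) ≤ n ∧ F w J e ≠ σ e.1 * σ (nx e)

theorem failsA (hd : 2 ≤ d) {J : (Fin d → ℤ) × Fin d → ℝ} (hJ : Gn J) {c : Fin d → ℤ}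
    {i j : Fin d} (hij : i ≠ j) {n r m : ℕ} (hnr : n ≤ r) (hm : 2 * r + 3 ≤ m * (2 * n + 1))
    {F : (Fin d → ℤ) → ((Fin d → ℤ) × Fin d → ℝ) → (Fin d → ℤ) × Fin d → ℝ} (hF : Loc F r) :
    ∃ l < m,
      (ErA F n (ce n (pa c i j r) i l) (flS (Kh c i j) J) ∨
        ErA F n (ce n (pa c i j r) i l) (flS (dC {v | v i ≤ c i}) J)) ∨
      (ErA F n (ce n (pa c i j r) j l) J ∨
        ErA F n (ce n (pa c i j r) j l) (flS (Kh c i j) J)) ∨
      (ErA F n (ce n (pd c i j r) i l) J ∨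
        ErA F n (ce n (pd c i j r) i l) (flS (Kh c i j) J)) ∨
      (ErA F n (ce n (pb c i j r) j l) J ∨
        ErA F n (ce n (pb c i j r) j l) (flS (Kh c i j) J)) := by
  classical
  by_contra hcon
  push Not at hcon
  have hji : j ≠ i := hij.symm
  set H : Set (Fin d → ℤ) := {v | v i ≤ c i} with hH
  set K := Kh c i j with hK
  obtain ⟨σ, hσ⟩ := exists_GA hd hJ
  obtain ⟨τ, hτ⟩ := exists_GA hd (hJ.flS K)
  have hσH : GA (flS (dC H) J) (flip H σ) := GA_gauge hσ H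
  have hσpm := (hσ 0).1
  have hτpm := (hτ 0).1
  -- rules that do not fail
  have rule : ∀ (w : Fin d → ℤ) (J' : (Fin d → ℤ) × Fin d → ℝ) (ρ : (Fin d → ℤ) → ℝ),
      ¬ ErA F n w J' → GA J' ρ → ∀ e : (Fin d → ℤ) × Fin d, nrm (e.1 - w) ≤ n →
      F w J' e = ρ e.1 * ρ (nx e) := by
    intro w J' ρ h1 h2 e he
    by_contra hne
    exact h1 ⟨ρ, h2, e, he, hne⟩
  have hdc : ∀ e : (Fin d → ℤ) × Fin d, (e ∈ dC {x | σ x ≠ τ x} ↔
      σ e.1 * σ (nx e) ≠ τ e.1 * τ (nx e)) := edge_iff hσpm hτpm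
  -- boxes which do not see the half hyperplane
  have hno : ∀ w : Fin d → ℤ, (∀ e ∈ tb w r, e ∉ K) → ¬ ErA F n w J →
      ¬ ErA F n w (flS K J) → ∀ e : (Fin d → ℤ) × Fin d, nrm (e.1 - w) ≤ n →
      (e ∈ dC {x | σ x ≠ τ x} ↔ e ∈ K) := by
    intro w hw h1 h2 e he
    have het : e ∈ tb w r := by
      rw [mem_tb, mem_bx]
      exact Or.inl (he.trans hnr)
    have h3 := rule w J σ h1 hσ e he
    have h4 := rule w _ τ h2 hτ e he
    have h5 : F w J e = F w (flS K J) e := by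
      refine hF w _ _ (fun f hf => ?_) e
      unfold flS
      rw [if_neg (hw f hf)]
    rw [hdc, ← h3, ← h4, h5]
    simp [hw e het]
  -- boxes on the bottom line
  have hyes : ∀ w : Fin d → ℤ, w j = c j - r →
      ¬ ErA F n w (flS K J) → ¬ ErA F n w (flS (dC H) J) →
      ∀ e : (Fin d → ℤ) × Fin d, nrm (e.1 - w) ≤ n → (e ∈ dC {x | σ x ≠ τ x} ↔ e ∈ K) := by
    intro w hwj h1 h2 e he
    have het : e ∈ tb w r := by
      rw [mem_tb, mem_bx]
      exact Or.inl (he.trans hnr)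
    have hHK : ∀ f ∈ tb w r, f ∈ K ↔ f ∈ dC H := by
      intro f hf
      rw [see_low hij hwj f hf]
      unfold dC
      simp only [hH, Set.mem_ofPred_eq]
      unfold nx
      by_cases hfi : f.2 = i
      · rw [hfi, Pi.add_apply, u_same]
        simp only [true_and]
        omega
      · rw [Pi.add_apply, u_ne (fun h => hfi h.symm)]
        simp [hfi]
    have h3 := rule w _ τ h1 hτ e he
    have h4 := rule w _ _ h2 hσH e he
    have h5 : F w (flS K J) e = F w (flS (dC H) J) e := by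
      refine hF w _ _ (fun f hf => ?_) e
      unfold flS
      by_cases hfK : f ∈ K
      · rw [if_pos hfK, if_pos ((hHK f hf).1 hfK)]
      · rw [if_neg hfK, if_neg (fun h => hfK ((hHK f hf).2 h))]
    have h6 : τ e.1 * τ (nx e) = flip H σ e.1 * flip H σ (nx e) := by rw [← h3, h5, h4]
    rw [hdc, hHK e het, h6]
    have h7 := flip_dC (G := H) hσpm e
    constructor
    · intro h
      by_contra hc
      exact h (h7.2 hc).symm
    · intro h heq
      exact (h7.1 heq.symm) h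
  -- lines
  have hdiv : ∀ t : ℕ, t < m * (2 * n + 1) → t / (2 * n + 1) < m := fun t ht =>
    (Nat.div_lt_iff_lt_mul (by omega)).2 ht
  have hcoord : ∀ (s : Fin d → ℤ) (k a : Fin d) (l : ℕ), a ≠ k → ce n s k l a = s a := by
    intro s k a l ha
    unfold ce
    rw [Pi.add_apply, Pi.smul_apply, u_ne ha, smul_zero, add_zero]
  refine parity (c := c) hij hm (S := {x | σ x ≠ τ x}) ?_ ?_ ?_ ?_
  · intro t ht
    have hl := hdiv t ht
    refine hyes _ ?_ (hcon _ hl).1.1 (hcon _ hl).1.2 _ (near_ce n _ _ t)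
    rw [hcoord _ _ _ _ hji, pa_j c r hij]
  · intro t ht
    have hl := hdiv t ht
    refine hno _ (see_left hij ?_) (hcon _ hl).2.1.1 (hcon _ hl).2.1.2 _ (near_ce n _ _ t)
    rw [hcoord _ _ _ _ hij, pa_i c r hij]
  · intro t ht
    have hl := hdiv t ht
    refine hno _ (see_high hij ?_) (hcon _ hl).2.2.1.1 (hcon _ hl).2.2.1.2 _ (near_ce n _ _ t)
    rw [hcoord _ _ _ _ hji, pd_j c r hij]
  · intro t ht
    have hl := hdiv t ht
    refine hno _ (see_right hij ?_) (hcon _ hl).2.2.2.1 (hcon _ hl).2.2.2.2 _ (near_ce n _ _ t)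
    rw [hcoord _ _ _ _ hij, pb_i c r hij]

variable (μ : Measure ℝ) [IsProbabilityMeasure μ]

/-- a rule with the centre `0`, moved to all centres -/
def mv (F : ((Fin d → ℤ) × Fin d → ℝ) → (Fin d → ℤ) × Fin d → ℝ) :
    (Fin d → ℤ) → ((Fin d → ℤ) × Fin d → ℝ) → (Fin d → ℤ) × Fin d → ℝ :=
  fun w J e => F (shw w J) (e.1 - w, e.2)

lemma shift_err {F : ((Fin d → ℤ) × Fin d → ℝ) → (Fin d → ℤ) × Fin d → ℝ} {n : ℕ}
    {w : Fin d → ℤ} {J : (Fin d → ℤ) × Fin d → ℝ} (h : ErA (mv F) n w J) :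
    ErA (fun _ => F) n 0 (shw w J) := by
  obtain ⟨σ, hσ, e, he, hne⟩ := h
  refine ⟨_, GA_shift hσ w, (e.1 - w, e.2), ?_, ?_⟩
  · rw [sub_zero]
    exact he
  · have h1 : nx ((e.1 - w, e.2) : (Fin d → ℤ) × Fin d) + w = nx e := by
      rw [← nx_shift]
      simp
    simp only [h1, sub_add_cancel]
    exact hne

lemma err_le (F : ((Fin d → ℤ) × Fin d → ℝ) → (Fin d → ℤ) × Fin d → ℝ) (n : ℕ)
    (w : Fin d → ℤ) : Lw μ d {J | ErA (mv F) n w J} ≤ Lw μ d {J | ErA (fun _ => F) n 0 J} := by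
  have h := shw_law (d := d) μ w
  have h1 := Measure.le_map_apply (μ := Lw μ d) h.measurable.aemeasurable
    {J | ErA (fun _ => F) n 0 J}
  rw [h.map_eq] at h1
  exact (measure_mono fun J hJ => shift_err hJ).trans h1

lemma mem_tb_shift {w : Fin d → ℤ} {r : ℕ} {f : (Fin d → ℤ) × Fin d} (hf : f ∈ tb 0 r) :
    (f.1 + w, f.2) ∈ tb w r := by
  rw [mem_tb, mem_bx, mem_bx] at hf ⊢
  rw [nx_shift, add_sub_cancel_right, add_sub_cancel_right]
  rw [sub_zero, sub_zero] at hf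
  exact hf

/-- **infinite volume** -/
theorem rule_inf (hd : 2 ≤ d) (hat : ∀ x, μ {x} = 0) (hsym : μ.map (fun x => -x) = μ)
    {n r m : ℕ} (hnr : n ≤ r) (hm : 2 * r + 3 ≤ m * (2 * n + 1))
    {F : ((Fin d → ℤ) × Fin d → ℝ) → (Fin d → ℤ) × Fin d → ℝ}
    (hF : ∀ J J' : (Fin d → ℤ) × Fin d → ℝ, (∀ e ∈ tb 0 r, J e = J' e) → ∀ e, F J e = F J' e) :
    1 ≤ ((8 * m : ℕ) : ENNReal) * Lw μ d {J | ErA (fun _ => F) n 0 J} := by
  classical
  set i : Fin d := ⟨0, by omega⟩ with hi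
  set j : Fin d := ⟨1, by omega⟩ with hj
  have hij : i ≠ j := by
    intro h
    have := congrArg Fin.val h
    simp [hi, hj] at this
  have hloc : Loc (mv F) r := by
    intro w J J' h e
    unfold mv
    refine hF _ _ (fun f hf => ?_) _
    exact h _ (mem_tb_shift hf)
  obtain ⟨q, hq⟩ : ∃ q : ENNReal, q = Lw μ d {J | ErA (fun _ => F) n 0 J} := ⟨_, rfl⟩
  rw [← hq]
  set c : Fin d → ℤ := 0 with hc
  set E : (Fin d → ℤ) → Set ((Fin d → ℤ) × Fin d → ℝ) := fun w => {J | ErA (mv F) n w J} with hE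
  have hEq : ∀ w, Lw μ d (E w) ≤ q := fun w => by
    rw [hq]
    exact err_le μ F n w
  set K := Kh c i j with hK
  set H := dC {v : Fin d → ℤ | v i ≤ c i} with hH
  set A : ℕ → Set ((Fin d → ℤ) × Fin d → ℝ) := fun l =>
    (flS K ⁻¹' E (ce n (pa c i j r) i l) ∪ flS H ⁻¹' E (ce n (pa c i j r) i l)) ∪
    ((E (ce n (pa c i j r) j l) ∪ flS K ⁻¹' E (ce n (pa c i j r) j l)) ∪
    ((E (ce n (pd c i j r) i l) ∪ flS K ⁻¹' E (ce n (pd c i j r) i l)) ∪
    (E (ce n (pb c i j r) j l) ∪ flS K ⁻¹' E (ce n (pb c i j r) j l)))) with hA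
  have hae : ∀ᵐ J ∂(Lw μ d), J ∈ ⋃ l ∈ Finset.range m, A l := by
    filter_upwards [gn_ae (d := d) μ hat] with J hJ
    obtain ⟨l, hl, h⟩ := failsA hd hJ (c := c) hij hnr hm hloc
    simp only [Set.mem_iUnion, Finset.mem_range, exists_prop]
    exact ⟨l, hl, h⟩
  have hAl : ∀ l < m, Lw μ d (A l) ≤ 8 * q := by
    intro l hl
    have h1 : Lw μ d (E (ce n (pa c i j r) i l)) ≤ q := hEq _
    have h2 : Lw μ d (E (ce n (pa c i j r) j l)) ≤ q := hEq _
    have h3 : Lw μ d (E (ce n (pd c i j r) i l)) ≤ q := hEq _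
    have h4 : Lw μ d (E (ce n (pb c i j r) j l)) ≤ q := hEq _
    have k1 := (flS_le μ hsym K (E (ce n (pa c i j r) i l))).trans h1
    have k1' := (flS_le μ hsym H (E (ce n (pa c i j r) i l))).trans h1
    have k2 := (flS_le μ hsym K (E (ce n (pa c i j r) j l))).trans h2
    have k3 := (flS_le μ hsym K (E (ce n (pd c i j r) i l))).trans h3
    have k4 := (flS_le μ hsym K (E (ce n (pb c i j r) j l))).trans h4
    calc Lw μ d (A l) ≤ (q + q) + ((q + q) + ((q + q) + (q + q))) := by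
          refine (measure_union_le _ _).trans (add_le_add ?_ ?_)
          · exact (measure_union_le _ _).trans (add_le_add k1 k1')
          · refine (measure_union_le _ _).trans (add_le_add ?_ ?_)
            · exact (measure_union_le _ _).trans (add_le_add h2 k2)
            · refine (measure_union_le _ _).trans (add_le_add ?_ ?_)
              · exact (measure_union_le _ _).trans (add_le_add h3 k3)
              · exact (measure_union_le _ _).trans (add_le_add h4 k4)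
      _ = 8 * q := by ring
  calc (1 : ENNReal) = Lw μ d Set.univ := measure_univ.symm
    _ ≤ Lw μ d (⋃ l ∈ Finset.range m, A l) := by
        refine measure_mono_ae ?_
        filter_upwards [hae] with J hJ _
        exact hJ
    _ ≤ ∑ l ∈ Finset.range m, Lw μ d (A l) := measure_biUnion_finset_le _ _
    _ ≤ ∑ l ∈ Finset.range m, 8 * q :=
        Finset.sum_le_sum fun l hl => hAl l (Finset.mem_range.1 hl)
    _ = ((8 * m : ℕ) : ENNReal) * q := by
        simp only [Finset.sum_const, Finset.card_range, nsmul_eq_mul]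
        push_cast
        ring

end Pool.Agent.Help40.EA
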